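import Mathlib

namespace Pool.Agent.Results.MP_a08e32_al.CentralOverMoufang

/-- A loop on `Q`: multiplication with left and right division and a two-sided identity. -/
structure LoopStr (Q : Type*) where
  mul : Q → Q → Q
  ldiv : Q → Q → Q
  rdiv : Q → Q → Q
  one : Q
  mul_ldiv : ∀ a b, mul a (ldiv a b) = b
  ldiv_mul : ∀ a b, ldiv a (mul a b) = b
  rdiv_mul : ∀ a b, mul (rdiv b a) a = b
  mul_rdiv : ∀ a b, rdiv (mul b a) a = b
  one_mul : ∀ a, mul one a = a
  mul_one : ∀ a, mul a one = a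

namespace LoopStr

variable {Q : Type*} (L : LoopStr Q)

/-- The inverse `x⁻¹` (the right inverse; in a flexible loop it is two-sided). -/
def inv (x : Q) : Q := L.ldiv x L.one

/-- The product `x ∘ y = (x / b) (a \ y)` of the principal isotope of `L` given by `a`, `b`. -/
def iso (a b x y : Q) : Q := L.mul (L.rdiv x b) (L.ldiv a y)

/-- Universally flexible: every principal isotope is flexible. -/
def UF : Prop := ∀ a b x y : Q,
  L.iso a b x (L.iso a b y x) = L.iso a b (L.iso a b x y) x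

/-- `c` lies in the center of the loop. -/
def Central (c : Q) : Prop :=
  (∀ x, L.mul c x = L.mul x c) ∧
  (∀ x y, L.mul (L.mul c x) y = L.mul c (L.mul x y)) ∧
  (∀ x y, L.mul (L.mul x c) y = L.mul x (L.mul c y)) ∧
  (∀ x y, L.mul (L.mul x y) c = L.mul x (L.mul y c))

/-- The quotient `Q / Z(Q)` has the left inverse property: `x (x⁻¹ w)` and `w` always differ by a
central factor. -/
def LIPModCenter : Prop := ∀ x w : Q, ∃ c, L.Central c ∧
  w = L.mul (L.mul x (L.mul (L.inv x) w)) c

/-- The semi-automorphic inverse property. -/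
def SAIP : Prop := ∀ x y : Q,
  L.inv (L.mul (L.mul x y) x) = L.mul (L.mul (L.inv x) (L.inv y)) (L.inv x)

variable {L}

theorem lcancel {a x y : Q} (h : L.mul a x = L.mul a y) : x = y := by
  have := congrArg (L.ldiv a) h
  rwa [L.ldiv_mul, L.ldiv_mul] at this

theorem rcancel {a x y : Q} (h : L.mul x a = L.mul y a) : x = y := by
  have := congrArg (fun t => L.rdiv t a) h
  simpa only [L.mul_rdiv] using this

theorem mul_inv (x : Q) : L.mul x (L.inv x) = L.one := L.mul_ldiv _ _

theorem eq_inv {x y : Q} (h : L.mul x y = L.one) : L.inv x = y :=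
  lcancel (a := x) (by rw [mul_inv, h])

/-- The closure form of universal flexibility. -/
theorem ufx (h : L.UF) {p r a b : Q} (e : L.mul p b = L.mul a r) (s : Q) :
    L.mul p (L.ldiv a (L.mul (L.rdiv s b) r)) =
      L.mul (L.rdiv (L.mul p (L.ldiv a s)) b) r := by
  have := h a b (L.mul p b) s
  simp only [iso] at this
  rw [L.mul_rdiv] at this
  have e2 : L.ldiv a (L.mul p b) = r := by rw [e, L.ldiv_mul]
  rw [e2] at this
  exact this

theorem flex (h : L.UF) (p s : Q) : L.mul p (L.mul s p) = L.mul (L.mul p s) p := by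
  have := ufx h (p := p) (r := p) (a := L.one) (b := L.one)
    (by rw [L.mul_one, L.one_mul]) s
  have l1 : ∀ t, L.ldiv L.one t = t := fun t => by
    have := L.mul_ldiv L.one t; rwa [L.one_mul] at this
  have r1 : ∀ t, L.rdiv t L.one = t := fun t => by
    have := L.rdiv_mul L.one t; rwa [L.mul_one] at this
  simpa only [l1, r1] using this

theorem inv_mul (h : L.UF) (x : Q) : L.mul (L.inv x) x = L.one := by
  apply lcancel (a := x)
  rw [flex h, mul_inv, L.one_mul, L.mul_one]

theorem inv_inv (h : L.UF) (x : Q) : L.inv (L.inv x) = x := eq_inv (inv_mul h x)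

/-- (A2) `p (z (p b)) = ((p (z b)) / b) (p b)` -/
theorem A2 (h : L.UF) (p z b : Q) :
    L.mul p (L.mul z (L.mul p b)) = L.mul (L.rdiv (L.mul p (L.mul z b)) b) (L.mul p b) := by
  have := ufx h (p := p) (r := L.mul p b) (a := L.one) (b := b)
    (by rw [L.one_mul]) (L.mul z b)
  have l1 : ∀ t, L.ldiv L.one t = t := fun t => by
    have := L.mul_ldiv L.one t; rwa [L.one_mul] at this
  simpa only [l1, L.mul_rdiv] using this

/-- (A1) `(a r) (a \ ((a z) r)) = ((a r) z) r` -/
theorem A1 (h : L.UF) (a r z : Q) :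
    L.mul (L.mul a r) (L.ldiv a (L.mul (L.mul a z) r)) = L.mul (L.mul (L.mul a r) z) r := by
  have := ufx h (p := L.mul a r) (r := r) (a := a) (b := L.one)
    (by rw [L.mul_one]) (L.mul a z)
  have r1 : ∀ t, L.rdiv t L.one = t := fun t => by
    have := L.rdiv_mul L.one t; rwa [L.mul_one] at this
  simpa only [r1, L.ldiv_mul] using this

/-- (U2) -/
theorem U2 (h : L.UF) {q a x : Q} (e : L.mul q a = x) :
    L.mul (L.rdiv q x) a = L.mul q (L.mul (L.inv x) a) := by
  have := A2 h q (L.inv x) a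
  rw [e, inv_mul h, L.mul_one] at this
  have h2 : L.rdiv q x = L.rdiv (L.mul q (L.mul (L.inv x) a)) a := by
    apply rcancel (a := x)
    rw [L.rdiv_mul, ← this]
  rw [h2, L.rdiv_mul]

/-- (U3) -/
theorem U3 (h : L.UF) {q a x : Q} (e : L.mul q a = x) :
    L.mul (L.mul q (L.inv x)) a = L.mul q (L.ldiv x a) := by
  have := A1 h q a (L.inv x)
  rw [e, mul_inv, L.one_mul] at this
  have h2 : L.ldiv q (L.mul (L.mul q (L.inv x)) a) = L.ldiv x a := by
    apply lcancel (a := x)
    rw [this, L.mul_ldiv]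
  rw [← h2, L.mul_ldiv]

/-- (U1) `((x y) / x⁻¹) (x \ (y⁻¹ x⁻¹)) = 1` -/
theorem U1 (h : L.UF) (x y : Q) :
    L.mul (L.rdiv (L.mul x y) (L.inv x)) (L.ldiv x (L.mul (L.inv y) (L.inv x))) = L.one := by
  have := ufx h (p := L.inv y) (r := L.ldiv x (L.mul (L.inv y) (L.inv x))) (a := x)
    (b := L.inv x) (by rw [L.mul_ldiv]) (L.mul x y)
  rw [L.ldiv_mul, inv_mul h] at this
  have h1 : L.rdiv L.one (L.inv x) = x := by
    apply rcancel (a := L.inv x)
    rw [L.rdiv_mul, mul_inv]
  rw [h1, L.mul_ldiv] at this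
  have h2 := lcancel this
  have h3 := congrArg (L.mul x) h2
  rw [L.mul_ldiv, mul_inv] at h3
  exact h3

theorem inv_comm (h : L.UF) (x w : Q) :
    L.mul (L.inv x) (L.mul w x) = L.mul (L.mul (L.inv x) w) x := by
  have := A2 h (L.inv x) w x
  rw [inv_mul h, L.mul_one, L.mul_one] at this
  rw [this, L.rdiv_mul]

/-- central elements move to the right -/
theorem Central.left {c : Q} (hc : L.Central c) (x y : Q) :
    L.mul (L.mul x c) y = L.mul (L.mul x y) c := by
  rw [hc.2.2.1, hc.1, hc.2.2.2]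

theorem Central.right {c : Q} (hc : L.Central c) (x y : Q) :
    L.mul x (L.mul y c) = L.mul (L.mul x y) c := (hc.2.2.2 x y).symm

/-- Lemma A. -/
theorem lemA (h : L.UF) (hL : L.LIPModCenter) {x w e : Q} (he : L.Central e)
    (hw : w = L.mul (L.mul x (L.mul (L.inv x) w)) e) :
    w = L.mul (L.mul (L.inv x) (L.mul x w)) e := by
  obtain ⟨c, hc, hcw⟩ := hL (L.inv x) w
  rw [inv_inv h] at hcw
  have h1 := A2 h x (L.inv x) w
  -- multiply by e
  have h2 := congrArg (fun t => L.mul t e) h1
  beta_reduce at h2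
  rw [← he.left (L.rdiv (L.mul x (L.mul (L.inv x) w)) w) (L.mul x w)] at h2
  have h3 : L.mul (L.rdiv (L.mul x (L.mul (L.inv x) w)) w) e = L.one := by
    apply rcancel (a := w)
    rw [he.left, L.rdiv_mul, L.one_mul]
    exact hw.symm
  rw [h3, L.one_mul] at h2
  have h4 : L.mul (L.mul x (L.mul (L.inv x) (L.mul x w))) c = L.mul x w := by
    rw [← hc.right, ← hcw]
  have h5 : e = c := lcancel (h2.trans h4.symm)
  rw [h5]
  exact hcw

/-- Lemma C. -/
theorem lemC (h : L.UF) {x b w e : Q} (he : L.Central e) (hb : L.mul b w = x)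
    (hw : w = L.mul (L.mul x (L.mul (L.inv x) w)) e) :
    L.mul (L.mul b (L.inv x)) x = L.mul b e := by
  have h1 : L.ldiv x w = L.mul (L.mul (L.inv x) w) e := by
    apply lcancel (a := x)
    rw [L.mul_ldiv, he.right]
    exact hw
  have h2 := U3 h hb
  rw [h1, he.right, ← U2 h hb, ← he.left] at h2
  have h3 := rcancel h2
  rw [h3, he.left, L.rdiv_mul]

/-- The key identity `((z x⁻¹) x)⁻¹ = x⁻¹ (x z⁻¹)`. -/
theorem key (h : L.UF) (hL : L.LIPModCenter) (x z : Q) :
    L.inv (L.mul (L.mul z (L.inv x)) x) = L.mul (L.inv x) (L.mul x (L.inv z)) := by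
  obtain ⟨e, he, hz⟩ := hL x (L.inv z)
  have hA := lemA h hL he hz
  -- for `z⁻¹ x`
  have hB : L.mul (L.inv z) x =
      L.mul (L.mul x (L.mul (L.inv x) (L.mul (L.inv z) x))) e := by
    rw [inv_comm h, flex h, ← he.left, ← hz]
  obtain ⟨c, hc, hcx⟩ := hL z x
  have hw : L.mul z (L.mul (L.mul (L.inv z) x) c) = x := by
    rw [hc.right, ← hcx]
  have hw2 : L.mul (L.mul (L.inv z) x) c =
      L.mul (L.mul x (L.mul (L.inv x) (L.mul (L.mul (L.inv z) x) c))) e := by
    rw [hc.right, hc.right, hc.left, ← hB]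
  have hC := lemC h he hw hw2
  apply eq_inv
  rw [hC, he.2.2.1, he.1, ← hA, mul_inv]

end LoopStr

/-- Every universally flexible loop `Q` such that `Q / Z(Q)` has the left inverse property (for
instance: such that `Q / Z(Q)` is a Moufang loop) has the semi-automorphic inverse property. -/
theorem result {Q : Type*} (L : LoopStr Q) (h : L.UF) (hL : L.LIPModCenter) : L.SAIP := by
  intro x y
  have h1 := LoopStr.eq_inv (LoopStr.U1 h x y)
  have h2 := LoopStr.key h hL x (L.rdiv (L.mul x y) (L.inv x))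
  rw [L.rdiv_mul, h1, L.mul_ldiv, LoopStr.flex h] at h2
  exact h2

end Pool.Agent.Results.MP_a08e32_al.CentralOverMoufang
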